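import Pool.Agent.Helper8.KT.Sheet

/-! # KT: the row ST -/

set_option autoImplicit false

namespace Pool.Agent.Helper53.KT

open Pool.Agent.Helper8.KT

theorem stST : ST_MC → ST_ST := by
  intro hMC d hd f hf D hD n G hG hI
  obtain ⟨M, hM1, hM2, hM3⟩ := hMC d hd f D hD n G hG (fun y hy hj j => (hI y hy hj j).1)
  obtain ⟨m, hm1, hm2, hm3⟩ := hMC d hd (fun i => - f i) D hD n (fun y => - G y)
    (fun y y' r h => by
      have := hG y y' r h
      rw [show -G y - -G y' = -(G y - G y') by ring, abs_neg]
      exact this)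
    (fun y hy hj j => by
      have := (hI y hy hj j).2
      linarith)
  have hne : (Finset.range (n + 2)).Nonempty := ⟨0, by simp⟩
  let V : (ℕ → ℝ) → ℝ := fun y => (Finset.range (n + 2)).sup' hne (fun i => f i - y i)
  have hV1 : ∀ y i, i ≤ n + 1 → f i - y i ≤ V y := fun y i hi =>
    Finset.le_sup' (fun i => f i - y i) (Finset.mem_range.2 (by omega))
  have hVl : ∀ (y y' : ℕ → ℝ) (r : ℝ), (∀ j ≤ n + 1, |y j - y' j| ≤ r) → V y ≤ V y' + r := by
    intro y y' r h
    refine Finset.sup'_le hne _ (fun i hi => ?_)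
    have hi' : i ≤ n + 1 := by have := Finset.mem_range.1 hi; omega
    have h1 := hV1 y' i hi'
    have h2 := abs_le.1 (h i hi')
    linarith [h2.1]
  refine ⟨fun y => max (- m y) (min (M y) (V y)), ?_, ?_, ?_⟩
  · intro y y' r h
    have h' : ∀ j ≤ n, |y j - y' j| ≤ r := fun j hj => h j (by omega)
    have e1 : |(- m y) - (- m y')| ≤ r := by
      rw [show -m y - -m y' = -(m y - m y') by ring, abs_neg]
      exact hm1 y y' r h'
    have e2 : |M y - M y'| ≤ r := hM1 y y' r h'
    have e3 : |V y - V y'| ≤ r := by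
      have a1 := hVl y y' r h
      have a2 := hVl y' y r (fun j hj => by rw [abs_sub_comm]; exact h j hj)
      rw [abs_le]; constructor <;> linarith
    refine (abs_max_sub_max_le_max _ _ _ _).trans (max_le e1 ?_)
    exact (abs_min_sub_min_le_max _ _ _ _).trans (max_le e2 e3)
  · rintro y hy ⟨i, hi, hiD⟩ j
    have hyij := hy i j
    have hfij := abs_le.1 (hf i j)
    constructor
    · refine le_max_of_le_right (le_min (hM3 y hy j) ?_)
      have := hV1 y i hi
      linarith [hyij.2, hfij.1]
    · refine max_le ?_ ?_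
      · have := hm3 y hy j
        linarith
      · refine (min_le_right _ _).trans (Finset.sup'_le hne _ (fun l _ => ?_))
        have h1 := abs_le.1 (hf l j)
        have h2 := (hy l j).2
        linarith [h1.2]
  · intro y hy hj
    have h1 := hM2 y hy hj
    have h2 := hm2 y hy hj
    change max (- m y) (min (M y) (V y)) = G y
    rw [h1, h2, neg_neg]
    exact max_eq_left (min_le_left _ _)

end Pool.Agent.Helper53.KT
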